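import Mathlib

/-!
Fast contract-signing protocols in which every party pays at most `2 √N + 13`.
-/

set_option autoImplicit false

namespace Pool.Agent.Results.MP_e6c168_lc.SquareRootCost

open Finset

/-- `P` is a fast protocol: contract `n` (on day `d` at party `P n d`) ends with its owner `n` on
day `N - 1`. -/
def Fast {N : ℕ} (P : Fin N → Equiv.Perm (Fin N)) : Prop :=
  ∀ (n : Fin N) (h : N - 1 < N), P n ⟨N - 1, h⟩ = n

/-- The amount paid by party `i`: the number of pairs `(d, j)` such that some contract is at `i` on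
day `d` and at `j` on day `d + 1`. -/
noncomputable def cost {N : ℕ} (P : Fin N → Equiv.Perm (Fin N)) (i : Fin N) : ℕ :=
  Nat.card {p : Fin N × Fin N // ∃ n, ∃ h : p.1.1 + 1 < N, P n p.1 = i ∧
    P n ⟨p.1.1 + 1, h⟩ = p.2}

/-- The minimum over all fast protocols of the maximal individual cost. -/
noncomputable def M (N : ℕ) : ℕ :=
  sInf {m | ∃ P : Fin N → Equiv.Perm (Fin N), Fast P ∧ univ.sup (cost P) = m}

/-- the last intermediate party for contract `n`, blocks of length `L` -/
def w (L n : ℕ) : ℕ := if n = 0 then 1 else n / L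

theorem w_ne {L n : ℕ} (hL : 2 ≤ L) : w L n ≠ n := by
  unfold w
  split_ifs with h
  · omega
  · exact (Nat.div_lt_self (by omega) (by omega)).ne

/-- the `d`-th element of the complement of `{a, b}` if `a < b` -/
def skip (a b d : ℕ) : ℕ := if d < a then d else if d + 1 < b then d + 1 else d + 2

/-- the party holding contract `n` on day `d` -/
def pos (N L n d : ℕ) : ℕ :=
  if d + 1 = N then n else if d + 2 = N then w L n else skip (min (w L n) n) (max (w L n) n) d

theorem skip_ne {a b d : ℕ} (h : a < b) : skip a b d ≠ a ∧ skip a b d ≠ b := by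
  unfold skip
  split_ifs <;> constructor <;> omega

theorem skip_inj {a b d e : ℕ} (he : skip a b d = skip a b e) : d = e := by
  unfold skip at he
  split_ifs at he <;> omega

theorem skip_mem {a b d : ℕ} : skip a b d = d ∨ skip a b d = d + 1 ∨ skip a b d = d + 2 := by
  unfold skip
  split_ifs <;> simp

theorem skip_succ {a b d : ℕ} :
    skip a b (d + 1) = skip a b d + 1 ∨ skip a b (d + 1) = skip a b d + 2 ∨
      skip a b (d + 1) = skip a b d + 3 := by
  unfold skip
  split_ifs <;> omega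

theorem minmax_lt {a b : ℕ} (h : a ≠ b) : min a b < max a b := by
  rcases lt_or_gt_of_ne h with h | h
  · rw [min_eq_left h.le, max_eq_right h.le]; exact h
  · rw [min_eq_right h.le, max_eq_left h.le]; exact h

theorem skip_ne' {a b d : ℕ} (h : a ≠ b) :
    skip (min a b) (max a b) d ≠ a ∧ skip (min a b) (max a b) d ≠ b := by
  have h1 := skip_ne (d := d) (minmax_lt h)
  rcases lt_or_gt_of_ne h with h | h
  · rw [min_eq_left h.le, max_eq_right h.le] at *; exact h1
  · rw [min_eq_right h.le, max_eq_left h.le] at *; exact h1.symm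

theorem pos_inj {N L n d e : ℕ} (hL : 2 ≤ L) (h : pos N L n d = pos N L n e) : d = e := by
  have hw := w_ne (n := n) hL
  have h1 := skip_ne' (d := d) hw
  have h2 := skip_ne' (d := e) hw
  unfold pos at h
  split_ifs at h with a1 a2 a3 a4 a5 a6 a7 a8
  · omega
  · exact absurd h hw.symm
  · exact absurd h.symm h2.2
  · exact absurd h hw
  · omega
  · exact absurd h.symm h2.1
  · exact absurd h h1.2
  · exact absurd h h1.1
  · exact skip_inj h

theorem w_lt {N L n : ℕ} (hN : 2 ≤ N) (hn : n < N) : w L n < N := by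
  unfold w
  split_ifs with h
  · omega
  · exact lt_of_le_of_lt (Nat.div_le_self _ _) hn

theorem pos_lt {N L n d : ℕ} (hN : 2 ≤ N) (hn : n < N) (hd : d < N) : pos N L n d < N := by
  unfold pos
  split_ifs with a1 a2
  · exact hn
  · exact w_lt hN hn
  · rcases skip_mem (a := min (w L n) n) (b := max (w L n) n) (d := d) with h | h | h <;>
      rw [h] <;> omega

/-- the protocol -/
noncomputable def prot (N L : ℕ) (hN : 2 ≤ N) (hL : 2 ≤ L) (n : Fin N) : Equiv.Perm (Fin N) :=
  Equiv.ofBijective (fun d => ⟨pos N L n d, pos_lt hN n.2 d.2⟩)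
    (Finite.injective_iff_bijective.1 fun d e h => by
      have h1 : pos N L n d = pos N L n e := congrArg Fin.val h
      exact Fin.ext (pos_inj hL h1))

theorem prot_val (N L : ℕ) (hN : 2 ≤ N) (hL : 2 ≤ L) (n d : Fin N) :
    (prot N L hN hL n d).1 = pos N L n d := rfl

theorem prot_fast (N L : ℕ) (hN : 2 ≤ N) (hL : 2 ≤ L) : Fast (prot N L hN hL) := by
  intro n h
  apply Fin.ext
  rw [prot_val]
  have : (⟨N - 1, h⟩ : Fin N).1 + 1 = N := by simp; omega
  unfold pos
  rw [if_pos this]

/-- a finite set of pairs which contains all envelopes of party `i` -/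
def big (N L i : ℕ) : Finset (ℕ × ℕ) :=
  ((Icc (i - 2) i) ×ˢ (Icc (i + 1) (i + 3))) ∪ (({N - 3} : Finset ℕ) ×ˢ (range (N / L + 2))) ∪
    (({N - 2} : Finset ℕ) ×ˢ (insert 0 (Ico (i * L) (i * L + L))))

theorem w_small {N L n : ℕ} (hn : n < N) : w L n < N / L + 2 := by
  unfold w
  split_ifs with h
  · exact Nat.lt_add_left _ (by norm_num)
  · have := Nat.div_le_div_right (c := L) hn.le
    exact Nat.lt_add_right 1 (Nat.lt_succ_of_le this)

theorem mem_block {L n i : ℕ} (hL : 2 ≤ L) (h : w L n = i) :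
    n ∈ insert 0 (Ico (i * L) (i * L + L)) := by
  unfold w at h
  split_ifs at h with h0
  · simp [h0]
  · rw [mem_insert, mem_Ico]
    right
    rw [Nat.div_eq_iff (by omega)] at h
    omega

theorem mem_big {N L n d i j : ℕ} (hL : 2 ≤ L) (hn : n < N) (hd : d + 1 < N)
    (hi : pos N L n d = i) (hj : pos N L n (d + 1) = j) : (d, j) ∈ big N L i := by
  have hw := w_ne (n := n) hL
  unfold big
  simp only [mem_union, mem_product]
  unfold pos at hi hj
  by_cases h1 : d + 2 = N
  · right
    rw [if_neg (by omega), if_pos h1] at hi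
    rw [if_pos (by omega)] at hj
    subst hj
    exact ⟨by simp; omega, mem_block hL hi⟩
  · left
    by_cases h2 : d + 3 = N
    · right
      rw [if_neg (by omega), if_pos (by omega)] at hj
      subst hj
      exact ⟨by simp; omega, by simpa using w_small hn⟩
    · left
      rw [if_neg (by omega), if_neg (by omega)] at hi hj
      have h3 := skip_mem (a := min (w L n) n) (b := max (w L n) n) (d := d)
      have h4 := skip_succ (a := min (w L n) n) (b := max (w L n) n) (d := d)
      rw [hi, hj] at h4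
      rw [hi] at h3
      simp only [mem_Icc]
      omega

theorem card_big (N L i : ℕ) : (big N L i).card ≤ N / L + L + 12 := by
  unfold big
  refine (card_union_le _ _).trans ?_
  refine (Nat.add_le_add_right (card_union_le _ _) _).trans ?_
  rw [card_product, card_product, card_product, card_singleton, card_singleton, Nat.card_Icc,
    Nat.card_Icc, card_range]
  have h1 : (insert 0 (Ico (i * L) (i * L + L))).card ≤ L + 1 := by
    refine (card_insert_le _ _).trans ?_
    rw [Nat.card_Ico]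
    omega
  have h2 : (i + 1 - (i - 2)) * (i + 3 + 1 - (i + 1)) ≤ 3 * 3 := Nat.mul_le_mul (by omega) (by omega)
  omega

theorem cost_le (N L : ℕ) (hN : 2 ≤ N) (hL : 2 ≤ L) (i : Fin N) :
    cost (prot N L hN hL) i ≤ N / L + L + 12 := by
  unfold cost
  refine le_trans ?_ (card_big N L i)
  rw [← Fintype.card_coe, ← Nat.card_eq_fintype_card]
  refine Nat.card_le_card_of_injective
    (fun p => (⟨(p.1.1.1, p.1.2.1), ?_⟩ : {x // x ∈ big N L i})) ?_
  · obtain ⟨p, n, h, h1, h2⟩ := p
    refine mem_big hL n.2 h ?_ ?_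
    · rw [← prot_val N L hN hL, h1]
    · exact congrArg Fin.val h2
  · rintro ⟨⟨a, b⟩, hp⟩ ⟨⟨c, d⟩, hq⟩ h
    simp only [Subtype.mk.injEq, Prod.mk.injEq] at h ⊢
    exact ⟨Fin.ext h.1, Fin.ext h.2⟩

theorem sqrt_bound (N : ℕ) : N / (Nat.sqrt N + 1) + (Nat.sqrt N + 1) + 12 ≤ 2 * Nat.sqrt N + 13 := by
  have h1 : N / (Nat.sqrt N + 1) < Nat.sqrt N + 1 := by
    rw [Nat.div_lt_iff_lt_mul (by omega)]
    exact Nat.lt_succ_sqrt N
  omega

theorem exists_fast (N : ℕ) (hN : 2 ≤ N) :
    ∃ P : Fin N → Equiv.Perm (Fin N), Fast P ∧ ∀ i, cost P i ≤ 2 * Nat.sqrt N + 13 := by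
  have hL : 2 ≤ Nat.sqrt N + 1 := by
    have : 1 ≤ Nat.sqrt N := by rw [Nat.le_sqrt]; omega
    omega
  exact ⟨prot N _ hN hL, prot_fast N _ hN hL, fun i =>
    (cost_le N _ hN hL i).trans (sqrt_bound N)⟩

theorem M_le (N : ℕ) (hN : 2 ≤ N) : M N ≤ 2 * Nat.sqrt N + 13 := by
  obtain ⟨P, h1, h2⟩ := exists_fast N hN
  have h3 : M N ≤ univ.sup (cost P) := Nat.sInf_le ⟨P, h1, rfl⟩
  exact h3.trans (Finset.sup_le fun i _ => h2 i)

theorem M_attained (N : ℕ) (hN : 2 ≤ N) :
    ∃ P : Fin N → Equiv.Perm (Fin N), Fast P ∧ univ.sup (cost P) = M N := by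
  obtain ⟨P, h1, -⟩ := exists_fast N hN
  exact Nat.sInf_mem (s := {m | ∃ P : Fin N → Equiv.Perm (Fin N), Fast P ∧
    univ.sup (cost P) = m}) ⟨_, P, h1, rfl⟩

theorem tendsto : Filter.Tendsto (fun N : ℕ => (M N : ℝ) / N) Filter.atTop (nhds 0) := by
  have h1 : Filter.Tendsto (fun N : ℕ => 15 * (Real.sqrt N)⁻¹) Filter.atTop (nhds 0) := by
    rw [show (0 : ℝ) = 15 * 0 by norm_num]
    exact ((tendsto_inv_atTop_zero.comp
      (Real.tendsto_sqrt_atTop.comp tendsto_natCast_atTop_atTop))).const_mul 15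
  refine tendsto_of_tendsto_of_tendsto_of_le_of_le' tendsto_const_nhds h1 ?_ ?_
  · exact Filter.Eventually.of_forall fun N => by positivity
  · filter_upwards [Filter.eventually_ge_atTop 2] with N hN
    have hN' : (2 : ℝ) ≤ N := by exact_mod_cast hN
    have h2 : (M N : ℝ) ≤ 2 * (Nat.sqrt N : ℝ) + 13 := by exact_mod_cast M_le N hN
    have h3 : (Nat.sqrt N : ℝ) ≤ Real.sqrt N := Real.nat_sqrt_le_real_sqrt
    have h4 : 1 ≤ Real.sqrt N := by
      rw [Real.one_le_sqrt]; linarith
    have h5 : Real.sqrt N * Real.sqrt N = N := Real.mul_self_sqrt (by linarith)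
    rw [div_le_iff₀ (by linarith), mul_assoc]
    have h6 : (Real.sqrt N)⁻¹ * N = Real.sqrt N := by
      rw [inv_mul_eq_iff_eq_mul₀ (by linarith)]
      exact h5.symm
    rw [h6]
    linarith

/-- `M N ≤ 2 √N + 13` for all `N ≥ 2`, where `M N` is the maximal individual cost of some fast
protocol; hence `M N / N` tends to `0`, and there is no constant `c > 0` such that every fast
protocol has a party which pays at least `c * N`. -/
theorem result :
    (∀ N : ℕ, 2 ≤ N →
      (∃ P : Fin N → Equiv.Perm (Fin N), Fast P ∧ univ.sup (cost P) = M N) ∧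
        M N ≤ 2 * Nat.sqrt N + 13) ∧
    Filter.Tendsto (fun N : ℕ => (M N : ℝ) / N) Filter.atTop (nhds 0) ∧
    ¬ ∃ c : ℝ, 0 < c ∧ ∀ N : ℕ, 2 ≤ N → ∀ P : Fin N → Equiv.Perm (Fin N), Fast P →
      ∃ i, c * N ≤ cost P i := by
  refine ⟨fun N hN => ⟨M_attained N hN, M_le N hN⟩, tendsto, ?_⟩
  rintro ⟨c, hc, h⟩
  have h1 := (tendsto.eventually (gt_mem_nhds hc)).and (Filter.eventually_ge_atTop 2)
  obtain ⟨N, hN1, hN2⟩ := h1.exists
  obtain ⟨P, hP, hPM⟩ := M_attained N hN2
  obtain ⟨i, hi⟩ := h N hN2 P hP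
  have h2 : cost P i ≤ M N := by
    rw [← hPM]
    exact Finset.le_sup (mem_univ i)
  have h3 : (cost P i : ℝ) ≤ M N := by exact_mod_cast h2
  have h4 : (0 : ℝ) < N := by
    have : (2 : ℝ) ≤ N := by exact_mod_cast hN2
    linarith
  rw [div_lt_iff₀ h4] at hN1
  linarith

end Pool.Agent.Results.MP_e6c168_lc.SquareRootCost
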